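import Pool.Agent.R338.CU.Law
import Pool.Agent.TH831.OE.Zt14

/-! The linear algebra conditions of helper831 for the symbols of a tuple of primes. -/

set_option autoImplicit false

open scoped Classical

namespace Pool.Agent.R338.CU

open Finset Pool.Agent.Y703.CX
open Pool.Agent.TH831.OE (NI)

/-- the linking number -/
noncomputable def lnk (F : Type) [Field F] {p : ℕ} (j q : ℕ)
    (χ : (ZMod j)ˣ →* Multiplicative (ZMod p)) : F :=
  if h : Nat.Coprime q j then
    ((Multiplicative.toAdd (χ (ZMod.unitOfCoprime q h))).val : F) else 0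

variable {F : Type} [Field F]

theorem lnk_eq [CharP F 3] {p q : ℕ} (hp : p.Prime) (h3 : p % 3 = 1) (hq : q.Prime) (hne : q ≠ p) :
    lnk F p q (chi p) = ZMod.castHom (dvd_refl 3) F (lam p q) := by
  have h : Nat.Coprime q p := (Nat.coprime_primes hq hp).2 hne
  unfold lnk
  rw [dif_pos h, ZMod.castHom_apply, ZMod.natCast_val, chi_apply hp h3 _ (ZMod.coe_unitOfCoprime q h)]

theorem lnk_self {p : ℕ} (hp : p.Prime) : lnk F p p (chi p) = 0 := by
  unfold lnk
  rw [dif_neg]
  rw [Nat.coprime_self]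
  exact hp.ne_one

theorem cast_inj [CharP F 3] : Function.Injective (ZMod.castHom (dvd_refl 3) F) :=
  RingHom.injective _

/-- the tuples of distinct primes congruent to `1` modulo `3` -/
structure Tup {ι : Type} (p : ι → ℕ) : Prop where
  inj : Function.Injective p
  pr : ∀ i, (p i).Prime
  m3 : ∀ i, p i % 3 = 1

theorem lnk_tup [CharP F 3] {ι : Type} {p : ι → ℕ} (hp : Tup p) {i j : ι} (hij : i ≠ j) :
    lnk F (p i) (p j) (chi (p i)) = ZMod.castHom (dvd_refl 3) F (lam (p i) (p j)) :=
  lnk_eq (hp.pr i) (hp.m3 i) (hp.pr j) fun h => hij (hp.inj h.symm)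

theorem ni2 [CharP F 3] {p : Fin 2 → ℕ} (hp : Tup p)
    (h : lam (p 0) (p 1) ≠ 0 ∨ lam (p 1) (p 0) ≠ 0) :
    NI F (univ.image p) (fun l j => lnk F j l (chi j)) := by
  have e : univ.image p = {p 0, p 1} := by
    ext x
    simp only [mem_image, mem_univ, true_and, mem_insert, mem_singleton]
    constructor
    · rintro ⟨i, rfl⟩
      fin_cases i <;> simp
    · rintro (rfl | rfl) <;> exact ⟨_, rfl⟩
  rw [e]
  refine Pool.Agent.TH831.OE.ni_pair (fun h => absurd (hp.inj h) (by decide)) ?_
  have c : ∀ x : ZMod 3, x ≠ 0 → ZMod.castHom (dvd_refl 3) F x ≠ 0 := fun x hx h0 =>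
    hx (cast_inj (F := F) (by rw [h0, map_zero]))
  rcases h with h | h
  · right
    show lnk F (p 0) (p 1) (chi (p 0)) ≠ 0
    rw [lnk_tup hp (by decide)]
    exact c _ h
  · left
    show lnk F (p 1) (p 0) (chi (p 1)) ≠ 0
    rw [lnk_tup hp (by decide)]
    exact c _ h

theorem ni3 [CharP F 3] {p : Fin 3 → ℕ} (hp : Tup p)
    (h : lam (p 1) (p 0) * lam (p 2) (p 1) * lam (p 0) (p 2) ≠
      lam (p 2) (p 0) * lam (p 1) (p 2) * lam (p 0) (p 1)) :
    NI F (univ.image p) (fun l j => lnk F j l (chi j)) := by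
  have e : univ.image p = {p 0, p 1, p 2} := by
    ext x
    simp only [mem_image, mem_univ, true_and, mem_insert, mem_singleton]
    constructor
    · rintro ⟨i, rfl⟩
      fin_cases i <;> simp
    · rintro (rfl | rfl | rfl) <;> exact ⟨_, rfl⟩
  rw [e]
  refine Pool.Agent.TH831.OE.ni_triple (fun h => absurd (hp.inj h) (by decide))
    (fun h => absurd (hp.inj h) (by decide)) (fun h => absurd (hp.inj h) (by decide)) ?_
  show lnk F (p 1) (p 0) (chi (p 1)) * lnk F (p 2) (p 1) (chi (p 2)) *
    lnk F (p 0) (p 2) (chi (p 0)) ≠ lnk F (p 2) (p 0) (chi (p 2)) *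
      lnk F (p 1) (p 2) (chi (p 1)) * lnk F (p 0) (p 1) (chi (p 0))
  rw [lnk_tup hp (by decide), lnk_tup hp (by decide), lnk_tup hp (by decide),
    lnk_tup hp (by decide), lnk_tup hp (by decide), lnk_tup hp (by decide), ← map_mul, ← map_mul,
    ← map_mul, ← map_mul]
  exact fun h' => h (cast_inj h')

/-- the matrices over `ℤ/3` such that two vectors satisfying the relations are dependent -/
def Good {r : ℕ} (α : Fin r → Fin r → ZMod 3) : Prop :=
  ∀ x y : Fin r → ZMod 3, (∀ i, x i * ∑ j, α j i * y j = y i * ∑ j, α j i * x j) →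
    ∀ i j, x i * y j = x j * y i

/-- the matrix of the symbols of a tuple, with zero diagonal -/
noncomputable def mat {r : ℕ} (p : Fin r → ℕ) : Fin r → Fin r → ZMod 3 :=
  fun i j => if i = j then 0 else lam (p i) (p j)

theorem ni_r [CharP F 3] [Finite F] (hF : Nat.card F = 3) {r : ℕ} {p : Fin r → ℕ} (hp : Tup p)
    (h : Good (mat p)) : NI F (univ.image p) (fun l j => lnk F j l (chi j)) := by
  have : Fintype F := Fintype.ofFinite F
  have hbij : Function.Bijective (ZMod.castHom (dvd_refl 3) F) := by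
    rw [Fintype.bijective_iff_injective_and_card]
    refine ⟨cast_inj, ?_⟩
    rw [ZMod.card, ← hF, Nat.card_eq_fintype_card]
  set φ := ZMod.castHom (dvd_refl 3) F with hφ
  have hsurj := hbij.2
  choose ψ hψ using hsurj
  intro x y hxy
  refine Pool.Agent.TH831.OE.dep_of_wedge ?_
  have key := h (fun i => ψ (x (p i))) (fun i => ψ (y (p i))) ?_
  · intro l hl m hm
    obtain ⟨i, -, rfl⟩ := mem_image.1 hl
    obtain ⟨j, -, rfl⟩ := mem_image.1 hm
    have h1 := congrArg φ (key i j)
    rw [map_mul, map_mul, hψ, hψ, hψ, hψ] at h1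
    exact h1
  · intro i
    have h1 := hxy (p i) (mem_image_of_mem _ (mem_univ _))
    have hs : ∀ w : ℕ → F, ∑ j ∈ univ.image p, lnk F j (p i) (chi j) * w j =
        φ (∑ j, mat p j i * ψ (w (p j))) := by
      intro w
      rw [sum_image fun a _ b _ hab => hp.inj hab, map_sum]
      refine sum_congr rfl fun j _ => ?_
      rw [map_mul, hψ]
      congr 1
      unfold mat
      by_cases hji : j = i
      · rw [if_pos hji, map_zero, hji]
        exact lnk_self (hp.pr i)
      · rw [if_neg hji]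
        exact lnk_tup hp hji
    apply hbij.1
    rw [map_mul, map_mul, ← hs, ← hs, hψ, hψ]
    exact h1

/-! ### counting -/

theorem card_prs (r : ℕ) : (prs (univ : Finset (Fin r))).card = r * (r - 1) := by
  have h : prs (univ : Finset (Fin r)) = (univ : Finset (Fin r)).offDiag := by
    ext ⟨a, b⟩
    simp [prs, eq_comm]
  rw [h, offDiag_card, card_univ, Fintype.card_fin, Nat.mul_sub, mul_one]

/-- the explicit pairs -/
theorem mem_prs {r : ℕ} {a b : Fin r} (h : b ≠ a) : (a, b) ∈ prs (univ : Finset (Fin r)) := by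
  simp [prs, h]

theorem card2 : (univ.filter fun α : prs (univ : Finset (Fin 2)) → ZMod 3 =>
    α ⟨(0, 1), mem_prs (by decide)⟩ ≠ 0 ∨ α ⟨(1, 0), mem_prs (by decide)⟩ ≠ 0).card = 8 := by
  set e : Fin 2 → prs (univ : Finset (Fin 2)) :=
    ![⟨(0, 1), mem_prs (by decide)⟩, ⟨(1, 0), mem_prs (by decide)⟩] with he
  have hinj : Function.Injective e := by
    intro i j h
    have h1 := congrArg (fun t : prs (univ : Finset (Fin 2)) => t.1) h
    fin_cases i <;> fin_cases j <;> simp_all
  have hb : Function.Bijective e := by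
    rw [Fintype.bijective_iff_injective_and_card]
    refine ⟨hinj, ?_⟩
    rw [Fintype.card_fin, Fintype.card_coe, card_prs]
  set E := Equiv.ofBijective e hb with hE
  rw [card_equiv (Equiv.arrowCongr E.symm (Equiv.refl (ZMod 3)))
    (t := univ.filter fun β : Fin 2 → ZMod 3 => β 0 ≠ 0 ∨ β 1 ≠ 0) (by
      intro α
      simp only [mem_filter, mem_univ, true_and, Equiv.arrowCongr_apply, Equiv.symm_symm,
        Function.comp, Equiv.refl_apply]
      rfl)]
  decide +kernel

theorem card3 : (univ.filter fun α : prs (univ : Finset (Fin 3)) → ZMod 3 =>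
    α ⟨(1, 0), mem_prs (by decide)⟩ * α ⟨(2, 1), mem_prs (by decide)⟩ *
      α ⟨(0, 2), mem_prs (by decide)⟩ ≠
    α ⟨(2, 0), mem_prs (by decide)⟩ * α ⟨(1, 2), mem_prs (by decide)⟩ *
      α ⟨(0, 1), mem_prs (by decide)⟩).card = 336 := by
  set e : Fin 6 → prs (univ : Finset (Fin 3)) :=
    ![⟨(1, 0), mem_prs (by decide)⟩, ⟨(2, 1), mem_prs (by decide)⟩,
      ⟨(0, 2), mem_prs (by decide)⟩, ⟨(2, 0), mem_prs (by decide)⟩,
      ⟨(1, 2), mem_prs (by decide)⟩, ⟨(0, 1), mem_prs (by decide)⟩] with he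
  have hinj : Function.Injective e := by
    intro i j h
    have h1 := congrArg (fun t : prs (univ : Finset (Fin 3)) => t.1) h
    fin_cases i <;> fin_cases j <;> simp_all
  have hb : Function.Bijective e := by
    rw [Fintype.bijective_iff_injective_and_card]
    refine ⟨hinj, ?_⟩
    rw [Fintype.card_fin, Fintype.card_coe, card_prs]
  set E := Equiv.ofBijective e hb with hE
  rw [card_equiv (Equiv.arrowCongr E.symm (Equiv.refl (ZMod 3)))
    (t := univ.filter fun β : Fin 6 → ZMod 3 => β 0 * β 1 * β 2 ≠ β 3 * β 4 * β 5) (by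
      intro α
      simp only [mem_filter, mem_univ, true_and, Equiv.arrowCongr_apply, Equiv.symm_symm,
        Function.comp, Equiv.refl_apply]
      rfl)]
  decide +kernel

end Pool.Agent.R338.CU
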