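import Pool.Agent.R338.CU.Ar

/-! Lower bounds for the number of good tuples. -/

set_option autoImplicit false

open scoped Classical

namespace Pool.Agent.R338.CU

open Finset Pool.Agent.Y703.CX

/-- disjoint sets of primes `≡ 1` modulo `3` up to `X i` -/
structure Sets {r : ℕ} (P : Fin r → Finset ℕ) (X : Fin r → ℕ) (z : ℕ) : Prop where
  one : 1 ≤ z
  le : ∀ i, z ≤ X i
  mem : ∀ i, ∀ p ∈ P i, p.Prime ∧ p % 3 = 1 ∧ p ≤ X i
  dis : ∀ i l, i ≠ l → Disjoint (P i) (P l)

theorem Sets.tup {r : ℕ} {P : Fin r → Finset ℕ} {X : Fin r → ℕ} {z : ℕ} (h : Sets P X z)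
    {p : Fin r → ℕ} (hp : p ∈ Fintype.piFinset P) : Tup p where
  inj := by
    intro i l hil
    by_contra hne
    exact disjoint_left.1 (h.dis i l hne) (Fintype.mem_piFinset.1 hp i)
      (hil ▸ Fintype.mem_piFinset.1 hp l)
  pr := fun i => (h.mem i _ (Fintype.mem_piFinset.1 hp i)).1
  m3 := fun i => (h.mem i _ (Fintype.mem_piFinset.1 hp i)).2.1

theorem main_lower : ∃ C : ℝ, 1 ≤ C ∧ ∀ (r : ℕ) (P : Fin r → Finset ℕ) (X : Fin r → ℕ) (z : ℕ),
    Sets P X z → ∀ (Q : (prs (univ : Finset (Fin r)) → ZMod 3) → Prop) (s : ℝ),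
      s ≤ ((univ.filter Q).card : ℝ) / 3 ^ (r * (r - 1)) →
      ∀ good : (Fin r → ℕ) → Prop,
        (∀ p ∈ Fintype.piFinset P, Q (fun e => lam (p e.1.1) (p e.1.2)) → good p) →
        s * ∏ i, ((P i).card : ℝ) - 3 ^ (r * (r - 1)) * (C * (z : ℝ) ^ (-(1 / 12 : ℝ)) *
          ∏ i, (X i : ℝ)) ≤ (((Fintype.piFinset P).filter good).card : ℝ) := by
  obtain ⟨C, hC1, hC⟩ := law
  refine ⟨C, hC1, fun r P X z hS Q s hs good hgood => ?_⟩
  have h1 := hC (Fin r) P X z hS.one hS.le hS.mem hS.dis Q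
  rw [card_prs] at h1
  have hN : ∀ (i1 : Fintype (prs (univ : Finset (Fin r)) → ZMod 3)) (d : DecidablePred Q),
      (@filter _ Q d (@univ _ i1)).card = {α | Q α}.ncard := by
    intro i1 d
    rw [← Set.ncard_coe_finset]
    congr 1
    exact Set.ext fun α => by simp
  have hM : ∀ (d1 : DecidableEq (Fin r))
      (d2 : DecidablePred fun p : Fin r → ℕ => Q fun e => lam (p e.1.1) (p e.1.2)),
      (@filter _ (fun p : Fin r → ℕ => Q fun e => lam (p e.1.1) (p e.1.2)) d2
        (@Fintype.piFinset _ d1 _ _ P)).card =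
      {p : Fin r → ℕ | (∀ i, p i ∈ P i) ∧ Q fun e => lam (p e.1.1) (p e.1.2)}.ncard := by
    intro d1 d2
    rw [← Set.ncard_coe_finset]
    congr 1
    exact Set.ext fun α => by simp
  rw [hN] at h1 hs
  rw [hM] at h1
  have h2 := (abs_le.1 h1).1
  have h3 : (({p : Fin r → ℕ | (∀ i, p i ∈ P i) ∧ Q fun e => lam (p e.1.1) (p e.1.2)}.ncard : ℕ) : ℝ)
      ≤ (((Fintype.piFinset P).filter good).card : ℝ) := by
    rw [← hM (fun a b => inferInstance) (fun a => inferInstance)]
    have : ((Fintype.piFinset P).filter fun p => Q fun e => lam (p e.1.1) (p e.1.2)) ⊆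
        (Fintype.piFinset P).filter good := by
      intro p hp
      rw [mem_filter] at hp ⊢
      exact ⟨hp.1, hgood p hp.1 hp.2⟩
    exact_mod_cast card_le_card this
  have h4 : s * ∏ i, ((P i).card : ℝ) ≤
      (({α | Q α}.ncard : ℕ) : ℝ) / 3 ^ (r * (r - 1)) * ∏ i, ((P i).card : ℝ) :=
    mul_le_mul_of_nonneg_right hs (prod_nonneg fun i _ => Nat.cast_nonneg _)
  linarith

/-- with classes -/
theorem cls_lower : ∃ C : ℝ, 1 ≤ C ∧ ∀ (r : ℕ) (P : Fin r → Finset ℕ) (X : Fin r → ℕ) (z : ℕ),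
    Sets P X z → ∀ (T : Type) [Fintype T] (cl : ℕ → T)
      (Q : (Fin r → T) → (prs (univ : Finset (Fin r)) → ZMod 3) → Prop) (s : ℝ),
      (∀ u : Fin r → T, (∀ i, ∃ p ∈ P i, cl p = u i) →
        s ≤ ((univ.filter (Q u)).card : ℝ) / 3 ^ (r * (r - 1))) →
      ∀ good : (Fin r → ℕ) → Prop,
        (∀ p ∈ Fintype.piFinset P, Q (fun i => cl (p i)) (fun e => lam (p e.1.1) (p e.1.2)) →
          good p) →
        s * ∏ i, ((P i).card : ℝ) - (Fintype.card T : ℝ) ^ r * (3 ^ (r * (r - 1)) *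
          (C * (z : ℝ) ^ (-(1 / 12 : ℝ)) * ∏ i, (X i : ℝ))) ≤
            (((Fintype.piFinset P).filter good).card : ℝ) := by
  obtain ⟨C, hC1, hC⟩ := main_lower
  refine ⟨C, hC1, fun r P X z hS T _ cl Q s hs good hgood => ?_⟩
  set E : ℝ := 3 ^ (r * (r - 1)) * (C * (z : ℝ) ^ (-(1 / 12 : ℝ)) * ∏ i, (X i : ℝ)) with hE
  have hE0 : 0 ≤ E := by positivity
  set Pu : (Fin r → T) → Fin r → Finset ℕ := fun u i => (P i).filter fun p => cl p = u i with hPu
  have hSu : ∀ u, Sets (Pu u) X z := fun u =>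
    { one := hS.one
      le := hS.le
      mem := fun i p hp => hS.mem i p (mem_filter.1 hp).1
      dis := fun i l hil => disjoint_left.2 fun p hp hp' =>
        disjoint_left.1 (hS.dis i l hil) (mem_filter.1 hp).1 (mem_filter.1 hp').1 }
  -- the number of tuples of a class
  have hu : ∀ u : Fin r → T, s * ∏ i, ((Pu u i).card : ℝ) - E ≤
      (((Fintype.piFinset (Pu u)).filter good).card : ℝ) := by
    intro u
    by_cases h : ∀ i, ∃ p ∈ P i, cl p = u i
    · refine hC r (Pu u) X z (hSu u) (Q u) s (hs u h) good fun p hp hQ => ?_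
      rw [Fintype.mem_piFinset] at hp
      refine hgood p (Fintype.mem_piFinset.2 fun i => (mem_filter.1 (hp i)).1) ?_
      have : (fun i => cl (p i)) = u := funext fun i => (mem_filter.1 (hp i)).2
      rw [this]
      exact hQ
    · push Not at h
      obtain ⟨i, hi⟩ := h
      have h0 : ∏ i, ((Pu u i).card : ℝ) = 0 := by
        refine prod_eq_zero (mem_univ i) ?_
        rw [Nat.cast_eq_zero, card_eq_zero, filter_eq_empty_iff]
        exact fun {p} hp => hi p hp
      rw [h0, mul_zero, zero_sub]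
      exact (neg_nonpos.2 hE0).trans (Nat.cast_nonneg _)
  have hsum := sum_le_sum fun u (_ : u ∈ (univ : Finset (Fin r → T))) => hu u
  rw [sum_sub_distrib, ← mul_sum, sum_const, card_univ, Fintype.card_fun, Fintype.card_fin,
    nsmul_eq_mul] at hsum
  have h1 : ∑ u : Fin r → T, ∏ i, ((Pu u i).card : ℝ) = ∏ i, ((P i).card : ℝ) := by
    have h2 := (prod_univ_sum (fun _ : Fin r => (univ : Finset T))
      (fun i t => (((P i).filter fun p => cl p = t).card : ℝ))).symm
    rw [Fintype.piFinset_univ] at h2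
    rw [h2]
    refine prod_congr rfl fun i _ => ?_
    have h3 := card_eq_sum_card_fiberwise (f := cl) (s := P i) (t := univ) fun _ _ => by simp
    rw [h3]
    push_cast
    rfl
  rw [h1] at hsum
  have h4 : (∑ u : Fin r → T, (((Fintype.piFinset (Pu u)).filter good).card : ℝ)) =
      (((Fintype.piFinset P).filter good).card : ℝ) := by
    have h5 := card_eq_sum_card_fiberwise (f := fun (p : Fin r → ℕ) i => cl (p i))
      (s := (Fintype.piFinset P).filter good) (t := univ) fun _ _ => by simp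
    rw [h5]
    push_cast
    refine sum_congr rfl fun u _ => ?_
    congr 2
    ext p
    simp only [mem_filter, Fintype.mem_piFinset, hPu, funext_iff]
    constructor
    · rintro ⟨h6, h7⟩
      exact ⟨⟨fun i => (h6 i).1, h7⟩, fun i => (h6 i).2⟩
    · rintro ⟨⟨h6, h7⟩, h8⟩
      exact ⟨fun i => ⟨h6 i, h8 i⟩, h7⟩
  rw [h4] at hsum
  have h6 : (((Fintype.card T) ^ r : ℕ) : ℝ) * E = (Fintype.card T : ℝ) ^ r * E := by push_cast; rfl
  rw [h6] at hsum
  exact hsum

/-- the share of the good matrices among the matrices over `ℤ/3` with zero diagonal -/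
noncomputable def share (r : ℕ) : ℝ :=
  ({α : Fin r → Fin r → ZMod 3 | (∀ i, α i i = 0) ∧ Good α}.ncard : ℝ) / 3 ^ (r * (r - 1))

theorem share_eq (r : ℕ) : share r =
    ((univ.filter fun α : prs (univ : Finset (Fin r)) → ZMod 3 => Good (Pool.Agent.Y703.CX.ext α)).card : ℝ) /
      3 ^ (r * (r - 1)) := by
  unfold share
  congr 2
  have hinj : Function.Injective fun α : prs (univ : Finset (Fin r)) → ZMod 3 =>
      (Pool.Agent.Y703.CX.ext α : Fin r → Fin r → ZMod 3) := by
    intro α β h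
    funext ⟨⟨a, b⟩, hab⟩
    have h1 := congrFun (congrFun h a) b
    unfold Pool.Agent.Y703.CX.ext at h1
    simp only [dif_pos hab] at h1
    exact h1
  rw [← Set.ncard_coe_finset, ← Set.ncard_image_of_injective _ hinj]
  congr 1
  ext α
  simp only [Set.mem_ofPred_eq, Set.mem_image, coe_filter, mem_univ, true_and]
  constructor
  · rintro ⟨h1, h2⟩
    have h3 : (Pool.Agent.Y703.CX.ext fun e : prs (univ : Finset (Fin r)) => α e.1.1 e.1.2) = α := by
      funext a b
      unfold Pool.Agent.Y703.CX.ext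
      by_cases hab : b = a
      · rw [dif_neg (by simp [prs, hab]), hab, h1]
      · rw [dif_pos (mem_prs hab)]
    refine ⟨fun e => α e.1.1 e.1.2, ?_, h3⟩
    rw [h3]
    exact h2
  · rintro ⟨β, h1, rfl⟩
    refine ⟨fun i => ?_, h1⟩
    unfold Pool.Agent.Y703.CX.ext
    rw [dif_neg (by simp [prs])]

theorem ext_mat {r : ℕ} (p : Fin r → ℕ) :
    (Pool.Agent.Y703.CX.ext fun e : prs (univ : Finset (Fin r)) => lam (p e.1.1) (p e.1.2)) = mat p := by
  funext a b
  unfold Pool.Agent.Y703.CX.ext mat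
  by_cases hab : a = b
  · rw [dif_neg (by simp [prs, hab]), if_pos hab]
  · rw [dif_pos (mem_prs (Ne.symm hab)), if_neg hab]

/-- an example with four indices -/
def exm : Fin 4 → Fin 4 → ZMod 3 := ![![0, 1, 1, 0], ![0, 0, 1, 1], ![1, 0, 0, 1], ![1, 1, 0, 0]]

end Pool.Agent.R338.CU
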