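import Pool.Agent.Y333.CX.LAM
import Pool.Agent.Y261.CX.BIL1
import Pool.Agent.Y419.CX.EQ

/-! Equidistribution of the matrices of the cubic residue symbols of tuples of primes from arbitrary
sets. Bilinear sums: helper261; equidistribution: helper419; logarithms: helper333; plan: helper703. -/

set_option autoImplicit false

open scoped Classical

namespace Pool.Agent.R338.CU

open Finset Pool.Agent.Y703.CX

theorem hL : LamP := Pool.Agent.Y333.CX.t_LAM

/-- the law -/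
theorem law : ∃ C : ℝ, 1 ≤ C ∧ ∀ (ι : Type) [Fintype ι] (P : ι → Finset ℕ) (X : ι → ℕ) (z : ℕ),
    1 ≤ z → (∀ i, z ≤ X i) → (∀ i, ∀ p ∈ P i, p.Prime ∧ p % 3 = 1 ∧ p ≤ X i) →
    (∀ i l, i ≠ l → Disjoint (P i) (P l)) →
    ∀ Q : (prs (univ : Finset ι) → ZMod 3) → Prop,
    |(((Fintype.piFinset P).filter fun p => Q fun e => lam (p e.1.1) (p e.1.2)).card : ℝ) -
      ((univ.filter Q).card : ℝ) / 3 ^ (prs (univ : Finset ι)).card * ∏ j, ((P j).card : ℝ)| ≤
    3 ^ (prs (univ : Finset ι)).card * (C * (z : ℝ) ^ (-(1 / 12 : ℝ)) * ∏ j, (X j : ℝ)) := by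
  obtain ⟨C, hC1, hC⟩ := Pool.Agent.Y261.CX.t_BIL1 hL
  have hC0 : (0 : ℝ) < C := by linarith
  refine ⟨C ^ (1 / 12 : ℝ), Real.one_le_rpow hC1 (by norm_num), ?_⟩
  intro ι _ P X z hz hzX hP hdis Q
  have hz0 : (0 : ℝ) < z := by exact_mod_cast hz
  refine Pool.Agent.Y419.CX.t_EQ ι univ P X (C ^ (1 / 12 : ℝ) * (z : ℝ) ^ (-(1 / 12 : ℝ)))
    (by positivity) ?_ ?_ Q
  · intro i
    have h1 : P i ⊆ Icc 1 (X i) := fun p hp => by
      obtain ⟨h1, h2, h3⟩ := hP i p hp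
      exact mem_Icc.2 ⟨h1.one_lt.le, h3⟩
    have := card_le_card h1
    simpa using this
  · intro i l hil a b c d hab _ _ hc hd
    have h1 := hC (P i) (P l) (X i) (X l) z c d a b (hP i) (hP l) (hdis i l hil) hab hz (hzX i)
      (hzX l) hc hd
    set N := ‖∑ x ∈ P i, ∑ y ∈ P l, c x * d y * Pool.Agent.Y699.E.ez (a * lam x y + b * lam y x)‖
      with hN
    have hXi : (0 : ℝ) ≤ (X i : ℝ) := Nat.cast_nonneg _
    have hXl : (0 : ℝ) ≤ (X l : ℝ) := Nat.cast_nonneg _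
    have h2 : N ^ 12 ≤ C * (z : ℝ)⁻¹ * ((X i : ℝ) * X l) ^ 12 := by
      rw [← div_eq_mul_inv, div_mul_eq_mul_div, le_div_iff₀ hz0]
      exact h1
    have h3 : (C ^ (1 / 12 : ℝ) * (z : ℝ) ^ (-(1 / 12 : ℝ)) * ((X i : ℝ) * X l)) ^ 12 =
        C * (z : ℝ)⁻¹ * ((X i : ℝ) * X l) ^ 12 := by
      rw [mul_pow, mul_pow, ← Real.rpow_natCast (C ^ (1 / 12 : ℝ)) 12,
        ← Real.rpow_natCast ((z : ℝ) ^ (-(1 / 12 : ℝ))) 12, ← Real.rpow_mul hC0.le,
        ← Real.rpow_mul hz0.le]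
      norm_num
      left
      rw [Real.rpow_neg_one]
      exact Or.inl rfl
    rw [← h3] at h2
    exact le_of_pow_le_pow_left₀ (by norm_num) (by positivity) h2

theorem not_dvd_pow {p n k : ℕ} (hp : p.Prime) (h : ¬ p ∣ n) : ¬ p ∣ n ^ k :=
  fun h' => h (hp.dvd_of_dvd_pow h')

/-- the logarithm depends on the class only -/
theorem lam_congr {p m n : ℕ} (hp : p.Prime) (h3 : p % 3 = 1) (hm : ¬ p ∣ m)
    (h : m ≡ n [MOD p]) : lam p m = lam p n := by
  have hn : ¬ p ∣ n := fun h' => hm ((h.dvd_iff dvd_rfl).2 h')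
  have hn2 : ¬ p ∣ n * n := fun h' => hn ((hp.dvd_mul.1 h').elim id id)
  have h1 : lam p (m * (n * n)) = lam p m + (lam p n + lam p n) := by
    rw [hL.mul p m (n * n) hp h3 hm hn2, hL.mul p n n hp h3 hn hn]
  have h2 : lam p (m * (n * n)) = 0 := by
    rw [hL.cube p (m * (n * n)) hp h3 (fun h' => (hp.dvd_mul.1 h').elim hm hn2)]
    refine ⟨(n : ℤ), ?_⟩
    have h4 : m * (n * n) ≡ n * (n * n) [MOD p] := Nat.ModEq.mul_right _ h
    have h5 := (Nat.modEq_iff_dvd.1 h4.symm)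
    push_cast at h5 ⊢
    have h6 : (m : ℤ) * (n * n) - (n : ℤ) ^ 3 = (m : ℤ) * (n * n) - n * (n * n) := by ring
    rw [h6]
    exact h5
  have h3' : ∀ a b : ZMod 3, a + (b + b) = 0 → a = b := by decide
  exact h3' _ _ (h1 ▸ h2)

theorem val_ndvd {p : ℕ} (hp : p.Prime) (x : (ZMod p)ˣ) : ¬ p ∣ (x : ZMod p).val := by
  have : Fact p.Prime := ⟨hp⟩
  intro h
  have h1 : ((x : ZMod p).val : ZMod p) = 0 := (ZMod.natCast_eq_zero_iff _ _).2 h
  rw [ZMod.natCast_zmod_val] at h1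
  exact x.ne_zero h1

/-- the cubic character modulo `p` -/
noncomputable def chi (p : ℕ) : (ZMod p)ˣ →* Multiplicative (ZMod 3) :=
  if h : p.Prime ∧ p % 3 = 1 then
    { toFun := fun x => Multiplicative.ofAdd (lam p (x : ZMod p).val)
      map_one' := by
        have : Fact p.Prime := ⟨h.1⟩
        have h1 : ((1 : (ZMod p)ˣ) : ZMod p).val = 1 := by
          rw [Units.val_one]
          exact ZMod.val_one p
        rw [h1]
        have h2 : lam p 1 = 0 := by
          rw [hL.cube p 1 h.1 h.2 (fun h' => h.1.one_lt.ne' (Nat.dvd_one.1 h'))]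
          exact ⟨1, by norm_num⟩
        rw [h2, ofAdd_zero]
      map_mul' := fun x y => by
        have : Fact p.Prime := ⟨h.1⟩
        rw [← ofAdd_add, ← hL.mul p _ _ h.1 h.2 (val_ndvd h.1 x) (val_ndvd h.1 y)]
        congr 1
        refine lam_congr h.1 h.2 (val_ndvd h.1 _) ?_
        rw [Units.val_mul, ZMod.val_mul]
        exact Nat.mod_modEq _ _ }
  else 1

theorem chi_apply {p q : ℕ} (hp : p.Prime) (h3 : p % 3 = 1) (x : (ZMod p)ˣ)
    (hx : (x : ZMod p) = (q : ZMod p)) : Multiplicative.toAdd (chi p x) = lam p q := by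
  have : Fact p.Prime := ⟨hp⟩
  unfold chi
  rw [dif_pos ⟨hp, h3⟩]
  show lam p (x : ZMod p).val = lam p q
  refine lam_congr hp h3 (val_ndvd hp x) ?_
  rw [hx, ZMod.val_natCast]
  exact Nat.mod_modEq _ _

theorem chi_ne {p : ℕ} (hp : p.Prime) (h3 : p % 3 = 1) : ∃ x, chi p x ≠ 1 := by
  have : Fact p.Prime := ⟨hp⟩
  by_contra hcon
  push Not at hcon
  -- the cube map is surjective, hence injective
  have hsurj : Function.Surjective fun x : (ZMod p)ˣ => x ^ 3 := by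
    intro y
    have h1 : lam p (y : ZMod p).val = 0 := by
      have := chi_apply hp h3 y (q := (y : ZMod p).val) (by rw [ZMod.natCast_zmod_val])
      rw [hcon y, toAdd_one] at this
      exact this.symm
    obtain ⟨t, ht⟩ := (hL.cube p _ hp h3 (val_ndvd hp y)).1 h1
    have h2 : (y : ZMod p) = (t : ZMod p) ^ 3 := by
      have h4 : (((((y : ZMod p).val : ℤ) - t ^ 3 : ℤ)) : ZMod p) = 0 :=
        (ZMod.intCast_zmod_eq_zero_iff_dvd _ _).2 ht
      push_cast at h4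
      rw [ZMod.natCast_zmod_val] at h4
      exact sub_eq_zero.1 h4
    have ht0 : (t : ZMod p) ≠ 0 := by
      intro h5
      rw [h5] at h2
      exact y.ne_zero (by rw [h2]; ring)
    refine ⟨Units.mk0 _ ht0, Units.ext ?_⟩
    rw [Units.val_pow_eq_pow_val, Units.val_mk0, h2]
  have hinj := Finite.injective_iff_surjective.2 hsurj
  have hcard : 3 ∣ Fintype.card (ZMod p)ˣ := by
    rw [ZMod.card_units p]
    omega
  have : Fact (Nat.Prime 3) := ⟨Nat.prime_three⟩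
  obtain ⟨g, hg⟩ := exists_prime_orderOf_dvd_card 3 hcard
  have h1 : g ^ 3 = 1 := by rw [← hg]; exact pow_orderOf_eq_one g
  have h2 : g = 1 := hinj (by show g ^ 3 = 1 ^ 3; rw [h1, one_pow])
  rw [h2, orderOf_one] at hg
  omega

end Pool.Agent.R338.CU
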