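import Pool.Agent.R338.CU.Cnt

/-! Pairs of primes together with `3`; an example with four indices. -/

set_option autoImplicit false

open scoped Classical

namespace Pool.Agent.R338.CU

open Finset Pool.Agent.Y703.CX
open Pool.Agent.TH831.OE (NI)

variable {F : Type} [Field F]

/-- the matrix with the index `1` for the prime `3` -/
noncomputable def lamW (F : Type) [Field F] (l j : ℕ) : F :=
  if j = 1 then (((l - 1) / 3 : ℕ) : F) else lnk F j (if l = 1 then 3 else l) (chi j)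

/-- the class of a prime -/
noncomputable def cl (p : ℕ) : ZMod 3 × ZMod 3 := ((((p - 1) / 3 : ℕ) : ZMod 3), lam p 3)

theorem niW [CharP F 3] {p : Fin 2 → ℕ} (hp : Tup p)
    (h : (cl (p 0)).2 * lam (p 1) (p 0) * (cl (p 1)).1 ≠
      (cl (p 1)).2 * lam (p 0) (p 1) * (cl (p 0)).1) :
    NI F (insert 1 (univ.image p)) (lamW F) := by
  have e : insert 1 (univ.image p) = {1, p 0, p 1} := by
    congr 1
    ext x
    simp only [mem_image, mem_univ, true_and, mem_insert, mem_singleton]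
    constructor
    · rintro ⟨i, rfl⟩
      fin_cases i <;> simp
    · rintro (rfl | rfl) <;> exact ⟨_, rfl⟩
  have h0 : p 0 ≠ 1 := (hp.pr 0).ne_one
  have h1 : p 1 ≠ 1 := (hp.pr 1).ne_one
  have h30 : 3 ≠ p 0 := by
    intro h'
    have := hp.m3 0
    rw [← h'] at this
    omega
  have h31 : 3 ≠ p 1 := by
    intro h'
    have := hp.m3 1
    rw [← h'] at this
    omega
  rw [e]
  refine Pool.Agent.TH831.OE.ni_triple h0.symm h1.symm (fun h => absurd (hp.inj h) (by decide)) ?_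
  unfold lamW
  simp only [if_neg h0, if_neg h1, if_true]
  rw [lnk_eq (hp.pr 0) (hp.m3 0) Nat.prime_three h30, lnk_eq (hp.pr 1) (hp.m3 1) Nat.prime_three h31,
    lnk_tup hp (by decide), lnk_tup hp (by decide),
    ← map_natCast (ZMod.castHom (dvd_refl 3) F) ((p 1 - 1) / 3),
    ← map_natCast (ZMod.castHom (dvd_refl 3) F) ((p 0 - 1) / 3), ← map_mul, ← map_mul, ← map_mul,
    ← map_mul]
  exact fun h' => h (cast_inj h')

theorem cardW (c d : ZMod 3) (hc : c ≠ 0) (hd : d ≠ 0) (c' d' : ZMod 3) : (univ.filter fun α : prs (univ : Finset (Fin 2)) → ZMod 3 =>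
    c * α ⟨(1, 0), mem_prs (by decide)⟩ * d ≠ c' * α ⟨(0, 1), mem_prs (by decide)⟩ * d').card =
      6 := by
  set e : Fin 2 → prs (univ : Finset (Fin 2)) :=
    ![⟨(0, 1), mem_prs (by decide)⟩, ⟨(1, 0), mem_prs (by decide)⟩] with he
  have hinj : Function.Injective e := by
    intro i j h
    have h1 := congrArg (fun t : prs (univ : Finset (Fin 2)) => t.1) h
    fin_cases i <;> fin_cases j <;> simp_all
  have hb : Function.Bijective e := by
    rw [Fintype.bijective_iff_injective_and_card]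
    refine ⟨hinj, ?_⟩
    rw [Fintype.card_fin, Fintype.card_coe, card_prs]
  set E := Equiv.ofBijective e hb with hE
  rw [card_equiv (Equiv.arrowCongr E.symm (Equiv.refl (ZMod 3)))
    (t := univ.filter fun β : Fin 2 → ZMod 3 => c * β 1 * d ≠ c' * β 0 * d') (by
      intro α
      simp only [mem_filter, mem_univ, true_and, Equiv.arrowCongr_apply, Equiv.symm_symm,
        Function.comp, Equiv.refl_apply]
      rfl)]
  revert c d c' d'
  decide +kernel

/-- primes congruent to `4` or `7` modulo `9` -/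
theorem cl_fst {p : ℕ} (h9 : p % 9 = 4 ∨ p % 9 = 7) : (cl p).1 ≠ 0 := by
  show (((p - 1) / 3 : ℕ) : ZMod 3) ≠ 0
  rw [Ne, ZMod.natCast_eq_zero_iff]
  omega

theorem cl_snd {p : ℕ} (hp : p.Prime) (h3 : p % 3 = 1) (hc : ∀ x : ZMod p, x ^ 3 ≠ 3) :
    (cl p).2 ≠ 0 := by
  show lam p 3 ≠ 0
  have hnd : ¬ p ∣ 3 := by
    intro h
    have := (Nat.prime_dvd_prime_iff_eq hp Nat.prime_three).1 h
    omega
  rw [Ne, hL.cube p 3 hp h3 hnd]
  rintro ⟨x, hx⟩
  refine hc (x : ZMod p) ?_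
  have h4 : (((((3 : ℕ) : ℤ) - x ^ 3 : ℤ)) : ZMod p) = 0 :=
    (ZMod.intCast_zmod_eq_zero_iff_dvd _ _).2 hx
  push_cast at h4
  exact (sub_eq_zero.1 h4).symm

/-- the condition for pairs -/
def Q2 (α : prs (univ : Finset (Fin 2)) → ZMod 3) : Prop :=
  α ⟨(0, 1), mem_prs (by decide)⟩ ≠ 0 ∨ α ⟨(1, 0), mem_prs (by decide)⟩ ≠ 0

/-- the condition for triples -/
def Q3 (α : prs (univ : Finset (Fin 3)) → ZMod 3) : Prop :=
  α ⟨(1, 0), mem_prs (by decide)⟩ * α ⟨(2, 1), mem_prs (by decide)⟩ *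
      α ⟨(0, 2), mem_prs (by decide)⟩ ≠
    α ⟨(2, 0), mem_prs (by decide)⟩ * α ⟨(1, 2), mem_prs (by decide)⟩ *
      α ⟨(0, 1), mem_prs (by decide)⟩

/-- the condition for pairs together with `3` -/
def QW (u : Fin 2 → ZMod 3 × ZMod 3) (α : prs (univ : Finset (Fin 2)) → ZMod 3) : Prop :=
  (u 0).2 * α ⟨(1, 0), mem_prs (by decide)⟩ * (u 1).1 ≠
    (u 1).2 * α ⟨(0, 1), mem_prs (by decide)⟩ * (u 0).1

theorem q2_le : (8 / 9 : ℝ) ≤ ((univ.filter Q2).card : ℝ) / 3 ^ (2 * (2 - 1)) := by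
  have h : (univ.filter Q2).card = 8 := by
    rw [← card2]
    congr 1
    ext α
    simp [Q2]
  rw [h]
  norm_num

theorem q3_le : (112 / 243 : ℝ) ≤ ((univ.filter Q3).card : ℝ) / 3 ^ (3 * (3 - 1)) := by
  have h : (univ.filter Q3).card = 336 := by
    rw [← card3]
    congr 1
    ext α
    simp [Q3]
  rw [h]
  norm_num

theorem qW_le {u : Fin 2 → ZMod 3 × ZMod 3} (h1 : (u 0).2 ≠ 0) (h2 : (u 1).1 ≠ 0) :
    (2 / 3 : ℝ) ≤ ((univ.filter (QW u)).card : ℝ) / 3 ^ (2 * (2 - 1)) := by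
  have h : (univ.filter (QW u)).card = 6 := by
    rw [← cardW _ _ h1 h2 (u 1).2 (u 0).1]
    congr 1
    ext α
    simp [QW]
  rw [h]
  norm_num

theorem good_exm : Good exm := by
  unfold Good
  decide +kernel

end Pool.Agent.R338.CU
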